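import Mathlib

/-!
# One parameter families of linear conditions, general patterns
-/

namespace ShghT

private theorem switchS_rows {k : Type*} [Field k] {n d : ℕ} (N : Matrix (Fin n) (Fin d) k)
    (hN : ∀ c : Fin d → k, N.mulVec c = 0 → c = 0) :
    ∃ f : Fin d → Fin n, Function.Injective f ∧ (N.submatrix f id).det ≠ 0 := by
  classical
  obtain ⟨κ, a, ha, hsp, hli⟩ := exists_linearIndependent' k (fun r => N r)
  have hκ : Finite κ := Finite.of_injective a ha
  have := Fintype.ofFinite κ
  have hfin : Module.finrank k (Submodule.span k (Set.range (fun r => N r))) = N.rank := by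
    rw [Matrix.rank_eq_finrank_span_row]
    rfl
  have hrank : N.rank = d := by
    have h1 : LinearMap.ker N.mulVecLin = ⊥ := by
      rw [LinearMap.ker_eq_bot']
      intro c hc
      exact hN c hc
    have h2 := LinearMap.finrank_range_add_finrank_ker N.mulVecLin
    rw [h1, finrank_bot, add_zero] at h2
    simpa [Matrix.rank] using h2
  have hcard : Fintype.card κ = d := by
    rw [← hrank, ← hfin, ← hsp, finrank_span_eq_card hli]
  let e : Fin d ≃ κ := Fintype.equivOfCardEq (by rw [Fintype.card_fin, hcard])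
  refine ⟨a ∘ e, ha.comp e.injective, ?_⟩
  have h2 : IsUnit (N.submatrix (a ∘ e) id) :=
    Matrix.linearIndependent_rows_iff_isUnit.1 (hli.comp e e.injective)
  exact ((Matrix.isUnit_iff_isUnit_det _).1 h2).ne_zero

open Polynomial in
/-- The expansion of the determinant of a matrix with rows `a i + X ^ κ i • b i`. -/
private theorem switchS_det {k : Type*} [Field k] {d : ℕ} (a b : Fin d → Fin d → k)
    (κ : Fin d → ℕ) :
    (Matrix.of fun i j => C (a i j) + X ^ κ i * C (b i j) : Matrix (Fin d) (Fin d) k[X]).det =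
      ∑ s : Finset (Fin d), X ^ (∑ i ∈ s, κ i) *
        C (Matrix.of fun i j => if i ∈ s then b i j else a i j).det := by
  classical
  have h1 : (Matrix.of fun i j => C (a i j) + X ^ κ i * C (b i j) : Matrix (Fin d) (Fin d) k[X]) =
      (fun i => (fun i => (X ^ κ i : k[X]) • fun j => C (b i j)) i + (fun i j => C (a i j)) i) := by
    funext i j
    show C (a i j) + X ^ κ i * C (b i j) = X ^ κ i * C (b i j) + C (a i j)
    ring
  have h2 : (Matrix.of fun i j => C (a i j) + X ^ κ i * C (b i j) : Matrix (Fin d) (Fin d) k[X]).det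
      = Matrix.detRowAlternating.toMultilinearMap ((fun i => (X ^ κ i : k[X]) • fun j => C (b i j)) +
        fun i j => C (a i j)) := by
    rw [h1]
    rfl
  rw [h2, MultilinearMap.map_add_univ]
  refine Finset.sum_congr rfl fun s _ => ?_
  have h3 : s.piecewise (fun i => (X ^ κ i : k[X]) • fun j => C (b i j)) (fun i j => C (a i j)) =
      s.piecewise (fun i => (X ^ κ i : k[X]) • s.piecewise (fun i j => C (b i j))
        (fun i j => C (a i j)) i) (s.piecewise (fun i j => C (b i j)) (fun i j => C (a i j))) := by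
    funext i
    by_cases hi : i ∈ s
    · rw [Finset.piecewise_eq_of_mem _ _ _ hi, Finset.piecewise_eq_of_mem _ _ _ hi,
        Finset.piecewise_eq_of_mem _ _ _ hi]
    · rw [Finset.piecewise_eq_of_notMem _ _ _ hi, Finset.piecewise_eq_of_notMem _ _ _ hi,
        Finset.piecewise_eq_of_notMem _ _ _ hi]
  rw [h3, MultilinearMap.map_piecewise_smul, Finset.prod_pow_eq_pow_sum, smul_eq_mul]
  congr 1
  have h4 : (s.piecewise (fun i j => C (b i j)) (fun i j => C (a i j)) : Fin d → Fin d → k[X]) =
      (C : k →+* k[X]).mapMatrix (Matrix.of fun i j => if i ∈ s then b i j else a i j) := by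
    funext i j
    by_cases hi : i ∈ s
    · rw [Finset.piecewise_eq_of_mem _ _ _ hi, RingHom.mapMatrix_apply, Matrix.map_apply,
        Matrix.of_apply, if_pos hi]
    · rw [Finset.piecewise_eq_of_notMem _ _ _ hi, RingHom.mapMatrix_apply, Matrix.map_apply,
        Matrix.of_apply, if_neg hi]
  rw [h4, RingHom.map_det]
  rfl

/-- The sum of the exponents determines the pattern. -/
def UniqSum (K : ℕ → ℕ) (n : ℕ) (S : Finset ℕ) : Prop :=
  ∀ S' ⊆ Finset.range n, ∑ i ∈ S', K i = ∑ i ∈ S ∩ Finset.range n, K i →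
    S' = S ∩ Finset.range n

open Polynomial in
/-- `A j + α ^ (K j) B j` (`j < n`) have no common zero on `W` for almost all `α` if `B j` (`j ∈ S`),
`A j` (`j ∉ S`) have none and `∑_{j ∈ S} K j` determines `S`. -/
theorem switchS {k V : Type*} [Field k] [AddCommGroup V] [Module k V] [FiniteDimensional k V]
    (W : Submodule k V) (n : ℕ) (A B : ℕ → (V →ₗ[k] k)) (K : ℕ → ℕ) (S : Finset ℕ)
    (hS : UniqSum K n S)
    (h : ∀ v ∈ W, (∀ j < n, j ∈ S → B j v = 0) → (∀ j < n, j ∉ S → A j v = 0) → v = 0) :
    {α : k | ∃ v ∈ W, v ≠ 0 ∧ ∀ j < n, A j v + α ^ K j * B j v = 0}.Finite := by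
  classical
  obtain ⟨d, ⟨b⟩⟩ : ∃ d : ℕ, Nonempty (Module.Basis (Fin d) k W) :=
    ⟨Module.finrank k W, ⟨Module.finBasis k W⟩⟩
  have hsum : ∀ (ℓ : V →ₗ[k] k) (c : Fin d → k),
      ℓ ((∑ j, c j • b j : W) : V) = ∑ j, ℓ (b j : V) * c j := by
    intro ℓ c
    rw [Submodule.coe_sum, map_sum]
    refine Finset.sum_congr rfl fun j _ => ?_
    rw [Submodule.coe_smul, map_smul, smul_eq_mul, mul_comm]
  set N : Matrix (Fin n) (Fin d) k :=
    fun i j => if (i : ℕ) ∈ S then B i (b j : V) else A i (b j : V) with hNdef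
  obtain ⟨f, hf, hdet⟩ := switchS_rows N (by
    intro c hc
    have h0 : ((∑ j, c j • b j : W) : V) = 0 := by
      apply h _ (Submodule.coe_mem _)
      · intro j hj hjS
        rw [hsum]
        have := congrFun hc ⟨j, hj⟩
        simpa [Matrix.mulVec, dotProduct, hNdef, hjS] using this
      · intro j hj hjS
        rw [hsum]
        have := congrFun hc ⟨j, hj⟩
        simpa [Matrix.mulVec, dotProduct, hNdef, hjS] using this
    have h1 : (∑ j, c j • b j : W) = 0 := Subtype.ext h0
    have h2 := (Fintype.linearIndependent_iff.1 b.linearIndependent) c h1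
    exact funext h2)
  set M : Matrix (Fin d) (Fin d) k[X] := Matrix.of fun i j =>
    C (A (f i) (b j : V)) + X ^ K (f i) * C (B (f i) (b j : V)) with hM
  have hexp := switchS_det (fun i j => A (f i) (b j : V)) (fun i j => B (f i) (b j : V))
    (fun i => K (f i))
  rw [← hM] at hexp
  set s₀ : Finset (Fin d) := Finset.univ.filter fun i => (f i : ℕ) ∈ S with hs₀
  have huniq : ∀ s : Finset (Fin d), ∑ i ∈ s, K (f i) = ∑ i ∈ s₀, K (f i) → s = s₀ := by
    intro s hs
    have hinj : Function.Injective fun i => ((f i : Fin n) : ℕ) :=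
      fun i j hij => hf (Fin.ext hij)
    set R : Finset ℕ := Finset.univ.image fun i => ((f i : Fin n) : ℕ) with hR
    set Z : Finset ℕ := (S ∩ Finset.range n) \ R with hZ
    have himg : ∀ u : Finset (Fin d), ∑ j ∈ u.image (fun i => ((f i : Fin n) : ℕ)), K j =
        ∑ i ∈ u, K (f i) := fun u => Finset.sum_image fun i _ j _ hij => hinj hij
    have hdis : ∀ u : Finset (Fin d), Disjoint (u.image (fun i => ((f i : Fin n) : ℕ))) Z := by
      intro u
      rw [Finset.disjoint_left]
      intro x hx hxZ
      rw [hZ, Finset.mem_sdiff] at hxZ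
      apply hxZ.2
      obtain ⟨i, -, rfl⟩ := Finset.mem_image.1 hx
      exact Finset.mem_image.2 ⟨i, Finset.mem_univ _, rfl⟩
    have h0 : s₀.image (fun i => ((f i : Fin n) : ℕ)) ∪ Z = S ∩ Finset.range n := by
      ext x
      rw [Finset.mem_union, hZ, Finset.mem_sdiff, Finset.mem_inter, Finset.mem_range]
      constructor
      · rintro (hx | hx)
        · obtain ⟨i, hi, rfl⟩ := Finset.mem_image.1 hx
          exact ⟨(Finset.mem_filter.1 hi).2, (f i).2⟩
        · exact hx.1
      · rintro ⟨hx1, hx2⟩
        by_cases hxR : x ∈ R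
        · left
          obtain ⟨i, -, rfl⟩ := Finset.mem_image.1 hxR
          exact Finset.mem_image.2 ⟨i, Finset.mem_filter.2 ⟨Finset.mem_univ _, hx1⟩, rfl⟩
        · right
          exact ⟨⟨hx1, hx2⟩, hxR⟩
    have h1 := hS (s.image (fun i => ((f i : Fin n) : ℕ)) ∪ Z) (by
      intro x hx
      rw [Finset.mem_range]
      rcases Finset.mem_union.1 hx with hx | hx
      · obtain ⟨i, -, rfl⟩ := Finset.mem_image.1 hx
        exact (f i).2
      · rw [hZ, Finset.mem_sdiff, Finset.mem_inter, Finset.mem_range] at hx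
        exact hx.1.2) (by
      rw [← h0, Finset.sum_union (hdis s), Finset.sum_union (hdis s₀), himg, himg, hs])
    ext i
    have h2 : (f i : ℕ) ∈ s.image (fun i => ((f i : Fin n) : ℕ)) ∪ Z ↔
        (f i : ℕ) ∈ s₀.image (fun i => ((f i : Fin n) : ℕ)) ∪ Z := by
      rw [h0, h1]
    have h3 : (f i : ℕ) ∉ Z := by
      rw [hZ, Finset.mem_sdiff]
      exact fun h => h.2 (Finset.mem_image.2 ⟨i, Finset.mem_univ _, rfl⟩)
    have h4 : ∀ u : Finset (Fin d), (f i : ℕ) ∈ u.image (fun i => ((f i : Fin n) : ℕ)) ↔ i ∈ u := by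
      intro u
      constructor
      · intro hx
        obtain ⟨j, hj, hij⟩ := Finset.mem_image.1 hx
        rwa [← hinj hij]
      · exact fun hx => Finset.mem_image.2 ⟨i, hx, rfl⟩
    rw [Finset.mem_union, Finset.mem_union, h4, h4] at h2
    tauto
  have hne : M.det ≠ 0 := by
    intro hz
    have hc : M.det.coeff (∑ i ∈ s₀, K (f i)) = (N.submatrix f id).det := by
      rw [hexp, Polynomial.finsetSum_coeff, Finset.sum_eq_single s₀]
      · rw [Polynomial.coeff_X_pow_mul', if_pos le_rfl, Nat.sub_self, Polynomial.coeff_C_zero]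
        congr 1
        apply Matrix.ext
        intro i j
        rw [Matrix.of_apply, Matrix.submatrix_apply, hNdef]
        simp only [hs₀, Finset.mem_filter, Finset.mem_univ, true_and, id]
      · intro s _ hs
        rw [Polynomial.coeff_X_pow_mul']
        split_ifs with hle
        · rw [Polynomial.coeff_C, if_neg]
          intro h0
          exact hs (huniq s (by omega))
        · rfl
      · intro h0
        exact absurd (Finset.mem_univ _) h0
    rw [hz, Polynomial.coeff_zero] at hc
    exact hdet hc.symm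
  refine (M.det.roots.toFinset.finite_toSet).subset ?_
  rintro α ⟨v, hvW, hv0, hAj⟩
  have hroot : M.det.IsRoot α := by
    obtain ⟨c, hc⟩ : ∃ c : Fin d → k, (∑ j, c j • b j : W) = ⟨v, hvW⟩ :=
      ⟨fun j => b.repr ⟨v, hvW⟩ j, b.sum_repr _⟩
    have hcv : ∀ ℓ : V →ₗ[k] k, ℓ v = ∑ j, ℓ (b j : V) * c j := by
      intro ℓ
      rw [← hsum ℓ c, hc]
    have hc0 : c ≠ 0 := by
      intro h3
      apply hv0
      have h4 : (⟨v, hvW⟩ : W) = 0 := by
        rw [← hc, h3]
        simp
      exact congrArg Subtype.val h4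
    have h1 : ((evalRingHom α).mapMatrix M).mulVec c = 0 := by
      funext i
      have e1 : ((evalRingHom α).mapMatrix M).mulVec c i =
          A (f i) v + α ^ K (f i) * B (f i) v := by
        rw [hcv, hcv, Finset.mul_sum, ← Finset.sum_add_distrib]
        simp only [Matrix.mulVec, dotProduct, RingHom.mapMatrix_apply, Matrix.map_apply]
        refine Finset.sum_congr rfl fun j _ => ?_
        rw [hM, Matrix.of_apply]
        simp
        ring
      rw [e1, hAj _ (f i).2]
      rfl
    have h2 : ((evalRingHom α).mapMatrix M).det = 0 := by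
      rw [← Matrix.exists_mulVec_eq_zero_iff]
      exact ⟨c, hc0, h1⟩
    have h3 : evalRingHom α M.det = 0 := by
      rw [RingHom.map_det]
      exact h2
    exact h3
  simp only [Finset.mem_coe, Multiset.mem_toFinset]
  exact (Polynomial.mem_roots hne).2 hroot

end ShghT
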