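import Pool.Agent.ShghW.Ranks
import Pool.Agent.ShghS.SwitchS

/-!
# General patterns on the circle half-way between two columns

On the circle half-way between the columns `p` and `p + 1` the conditions of the pair of columns
`p - r`, `p + 1 + r` are `m - 2 r - 1` conditions on both and one shared condition, which is given to
`p + 1 + r` for `r ∈ S` and to `p - r` for `r ∉ S`.
-/

namespace ShghT

/-- The rank of the pattern `S`. -/
def rkS (S : Finset ℕ) (p l : ℤ) : ℤ :=
  if l ≤ p then 2 * (p - l) + 1 + (if (p - l).toNat ∈ S then 1 else 0)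
  else 2 * (l - p - 1) + 1 + (if (l - p - 1).toNat ∈ S then 0 else 1)

/-- The rank belonging to a mode. -/
noncomputable def rkM (S : Finset ℕ) (p : ℤ) : Option Bool → ℤ → ℤ
  | some s => rk p s
  | none => rkS S p

/-- The number of conditions on the residue class `ρ`. -/
noncomputable def NM (e : ℕ) (m : ℕ) (p : ℤ) (o : Option Bool) (S : Finset ℕ) (ρ : ℕ) : ℕ :=
  ∑ j ∈ (Finset.Icc (p - (m : ℤ)) (p + m)).filter (fun j : ℤ => j % e = ρ),
    ((m : ℤ) + 1 - rkM S p o j).toNat

theorem NM_some (e m : ℕ) (p : ℤ) (s : Bool) (S : Finset ℕ) (ρ : ℕ) :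
    NM e m p (some s) S ρ = Nr e m p s ρ := rfl

theorem rkS_zero (p l : ℤ) : rkS {0} p l = rkB p l := by
  unfold rkS rkB rk
  simp only [Finset.mem_singleton, if_true]
  split_ifs <;> omega

theorem NM_zero (e m : ℕ) (p : ℤ) (o : Option Bool) (ρ : ℕ) : NM e m p o {0} ρ = NO e m p o ρ := by
  cases o with
  | some s => rfl
  | none =>
    unfold NM NO
    refine Finset.sum_congr rfl fun j _ => ?_
    show ((m : ℤ) + 1 - rkS {0} p j).toNat = ((m : ℤ) + 1 - rkB p j).toNat
    rw [rkS_zero]

theorem rkM_pos (S : Finset ℕ) (p : ℤ) (o : Option Bool) (l : ℤ) : 1 ≤ rkM S p o l := by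
  cases o with
  | some s => exact rkO_pos p (some s) l
  | none =>
    show 1 ≤ rkS S p l
    unfold rkS
    split_ifs <;> omega

/-- The condition on the pattern. -/
def GoodS (m : ℕ) (S : Finset ℕ) : Prop := UniqSum (fun j => 2 * j + 1) ((m + 1) / 2) S

theorem goodS_zero (m : ℕ) : GoodS m {0} := by
  intro S' hS' hsum
  rcases Nat.eq_zero_or_pos ((m + 1) / 2) with h0 | h0
  · rw [h0] at hS' ⊢
    rw [Finset.range_zero, Finset.subset_empty] at hS'
    rw [hS']
    simp
  · have h1 : ({0} : Finset ℕ) ∩ Finset.range ((m + 1) / 2) = {0} := by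
      rw [Finset.inter_eq_left]
      intro x hx
      rw [Finset.mem_singleton] at hx
      rw [hx, Finset.mem_range]
      exact h0
    rw [h1] at hsum ⊢
    rw [Finset.sum_singleton] at hsum
    have hsum' : ∑ j ∈ S', (2 * j + 1) = 1 := hsum
    have h2 : ∀ x ∈ S', x = 0 := by
      intro x hx
      have := Finset.single_le_sum (f := fun j => 2 * j + 1) (fun _ _ => Nat.zero_le _) hx
      have h0 : 2 * x + 1 ≤ ∑ j ∈ S', (2 * j + 1) := this
      omega
    have h3 : S'.Nonempty := by
      by_contra h
      rw [Finset.not_nonempty_iff_eq_empty] at h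
      rw [h, Finset.sum_empty] at hsum'
      omega
    obtain ⟨x, hx⟩ := h3
    ext y
    rw [Finset.mem_singleton]
    constructor
    · exact fun hy => h2 y hy
    · rintro rfl
      have := h2 x hx
      rwa [this] at hx

end ShghT
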